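import Pool.Agent.H38.ST.S8.Helper923.PNT

set_option autoImplicit false

/-!
# A lower bound for the number of primes in a residue class
-/

namespace Pool.Agent.TH869.EVF

open Finset Filter Topology ArithmeticFunction

/-- the primes `p ≤ y` in the class of `a` modulo `q` -/
noncomputable def PA (q a : ℕ) (y : ℝ) : Finset ℕ :=
  (Icc 1 ⌊y⌋₊).filter (fun p : ℕ => p.Prime ∧ ((p : ℕ) : ZMod q) = (a : ZMod q))

theorem class_sum_le (q a : ℕ) [NeZero q] (x : ℝ) (hx : 1 ≤ x) :
    ∑ k ∈ Icc 1 ⌊x⌋₊, vonMangoldt.residueClass (a : ZMod q) k ≤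
      (PA q a x).card * Real.log x + (Chebyshev.psi x - Chebyshev.theta x) := by
  classical
  have h1 : ∀ k ∈ Icc 1 ⌊x⌋₊, vonMangoldt.residueClass (a : ZMod q) k ≤
      (if k.Prime ∧ ((k : ℕ) : ZMod q) = (a : ZMod q) then Real.log x else 0) +
        ((vonMangoldt k : ℝ) - if k.Prime then Real.log k else 0) := by
    intro k hk
    rw [mem_Icc] at hk
    have hkx : (k : ℝ) ≤ x := (Nat.cast_le.mpr hk.2).trans (Nat.floor_le (by linarith))
    have hk0 : (0 : ℝ) < k := by exact_mod_cast hk.1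
    by_cases hc : ((k : ℕ) : ZMod q) = (a : ZMod q)
    · have h2 : vonMangoldt.residueClass (a : ZMod q) k = vonMangoldt k := by
        rw [vonMangoldt.residueClass, Set.indicator_of_mem]
        exact hc
      rw [h2]
      by_cases hp : k.Prime
      · rw [if_pos ⟨hp, hc⟩, if_pos hp]
        have := Real.log_le_log hk0 hkx
        linarith
      · rw [if_neg (fun h => hp h.1), if_neg hp]
        linarith
    · have h2 : vonMangoldt.residueClass (a : ZMod q) k = 0 := by
        rw [vonMangoldt.residueClass, Set.indicator_of_notMem]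
        exact hc
      rw [h2, if_neg (fun h => hc h.2)]
      by_cases hp : k.Prime
      · rw [if_pos hp, vonMangoldt_apply_prime hp]; simp
      · rw [if_neg hp]
        have := vonMangoldt_nonneg (n := k)
        linarith
  refine (sum_le_sum h1).trans (le_of_eq ?_)
  rw [sum_add_distrib, sum_sub_distrib, ← sum_filter, ← sum_filter, sum_const, nsmul_eq_mul]
  rfl

theorem PA_eventually (q a : ℕ) (hq : 0 < q) (ha : a.Coprime q) :
    ∀ᶠ x : ℝ in atTop, (q.totient : ℝ)⁻¹ / 4 * x ≤ (PA q a x).card * Real.log x := by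
  have : NeZero q := ⟨hq.ne'⟩
  have hu : IsUnit (a : ZMod q) := (ZMod.isUnit_iff_coprime a q).2 ha
  have h1 := Pool.Agent.Helper923.PNT.pnt_residueClass hu
  have hφ : (0 : ℝ) < (q.totient : ℝ)⁻¹ := by
    have : 0 < q.totient := Nat.totient_pos.2 hq
    positivity
  have h2 := h1.eventually (lt_mem_nhds (show (q.totient : ℝ)⁻¹ / 2 < (q.totient : ℝ)⁻¹ by linarith))
  obtain ⟨C, hC⟩ := Chebyshev.psi_sub_theta_le_mul_sqrt
  have h3 : ∀ᶠ x : ℝ in atTop, 4 * (|C| + 1) / (q.totient : ℝ)⁻¹ ≤ √x :=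
    Real.tendsto_sqrt_atTop.eventually_ge_atTop _
  filter_upwards [h2, h3, eventually_ge_atTop (1 : ℝ)] with x h4 h5 h6
  have hx0 : 0 < x := by linarith
  rw [lt_div_iff₀ hx0] at h4
  have h7 := class_sum_le q a x h6
  have h8 := hC x
  rw [div_le_iff₀ hφ] at h5
  have h9 : C * √x ≤ (q.totient : ℝ)⁻¹ / 4 * x := by
    have hs : √x * √x = x := Real.mul_self_sqrt hx0.le
    have hs0 : 0 ≤ √x := Real.sqrt_nonneg x
    have hCle : C ≤ |C| := le_abs_self C
    nlinarith
  linarith

/-- a lower bound for the number of primes in a residue class -/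
theorem PA_lower (q a : ℕ) (hq : 0 < q) (ha : a.Coprime q) (δ : ℝ) (hδ : 0 < δ)
    (hδ1 : δ ≤ 1) :
    ∃ c C0 : ℝ, 0 < c ∧ 0 < C0 ∧ ∀ y : ℝ, 0 < y → c * y ^ (1 - δ) - C0 ≤ (PA q a y).card := by
  obtain ⟨x0, hx0⟩ := eventually_atTop.mp (PA_eventually q a hq ha)
  have hφ : (0 : ℝ) < (q.totient : ℝ)⁻¹ := by
    have : 0 < q.totient := Nat.totient_pos.2 hq
    positivity
  set c : ℝ := (q.totient : ℝ)⁻¹ / 4 * δ with hc
  have hc0 : 0 < c := by positivity
  set X : ℝ := max x0 2 with hX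
  have hX2 : 2 ≤ X := le_max_right _ _
  refine ⟨c, c * (1 + X ^ (1 - δ)) + 1, hc0, by positivity, ?_⟩
  intro y hy
  have hcard : (0 : ℝ) ≤ (PA q a y).card := by positivity
  rcases le_or_gt X y with h | h
  · have h1 := hx0 y ((le_max_left _ _).trans h)
    have hy1 : 1 < y := by linarith
    have h2 := Real.log_le_rpow_div hy.le hδ
    have hyδ : 0 < y ^ δ := Real.rpow_pos_of_pos hy δ
    have h3 : (q.totient : ℝ)⁻¹ / 4 * y ≤ (PA q a y).card * (y ^ δ / δ) :=
      h1.trans (by gcongr)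
    have h4 : c * y ≤ (PA q a y).card * y ^ δ := by
      have h5 := mul_le_mul_of_nonneg_right h3 hδ.le
      have e : ((PA q a y).card : ℝ) * (y ^ δ / δ) * δ = (PA q a y).card * y ^ δ := by
        field_simp
      rw [e] at h5
      rw [hc]; linarith
    have h6 : y ^ (1 - δ) * y ^ δ = y := by
      rw [← Real.rpow_add hy]; simp
    have h7 : c * y ^ (1 - δ) ≤ (PA q a y).card := by
      refine le_of_mul_le_mul_right ?_ hyδ
      rw [mul_assoc, h6]
      exact h4
    have h8 : 0 ≤ c * (1 + X ^ (1 - δ)) + 1 := by positivity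
    linarith
  · have h1 := Real.rpow_le_rpow hy.le h.le (show 0 ≤ 1 - δ by linarith)
    nlinarith

end Pool.Agent.TH869.EVF
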